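import Pool.Agent.H.MP_25bd62_pr.A

/-! The expected longest path after the (1,1) edge-removal process has order log n. -/

open Finset Filter Topology

namespace Pool.Agent.Results.MP_25bd62_pr.Log

/-- edges `(a, b)` with `a < b` -/
abbrev Ed (n : ℕ) : Type := {e : Fin n × Fin n // e.1 < e.2}

/-- number of vertices of in-degree zero -/
def ini {n : ℕ} (G : Finset (Ed n)) : ℕ := #{v : Fin n | ∀ e ∈ G, e.1.2 ≠ v}

/-- number of vertices of out-degree zero -/
def ter {n : ℕ} (G : Finset (Ed n)) : ℕ := #{v : Fin n | ∀ e ∈ G, e.1.1 ≠ v}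

/-- examine the edge `e` -/
def step {n : ℕ} (G : Finset (Ed n)) (e : Ed n) : Finset (Ed n) :=
  if ini (G.erase e) ≤ 1 ∧ ter (G.erase e) ≤ 1 then G.erase e else G

/-- maximum directed path length -/
noncomputable def len {n : ℕ} (G : Finset (Ed n)) : ℕ :=
  sSup {l | ∃ v : ℕ → Fin n, ∀ i < l, ∃ e ∈ G, e.1 = (v i, v (i + 1))}

/-- expected maximum path length of the output, over a uniform ordering of all edges -/
noncomputable def EL (n : ℕ) : ℝ :=
  (∑ σ : Fin (Fintype.card (Ed n)) ≃ Ed n, (len ((List.ofFn σ).foldl step univ) : ℝ)) /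
    Fintype.card (Fin (Fintype.card (Ed n)) ≃ Ed n)

theorem result : ∃ c C : ℝ, 0 < c ∧ c ≤ C ∧ ∀ᶠ n : ℕ in atTop, c * Real.log n ≤ EL n ∧ EL n ≤ C * Real.log n :=
  Pool.Agent.H.MP_25bd62_pr.main

end Pool.Agent.Results.MP_25bd62_pr.Log
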